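import Pool.Agent.TH957.Sch.Coh

/-!
# Homomorphisms to `ℤ/p` with local conditions: finiteness along norm relations prime to `p`
-/

namespace Pool.Agent.TH957.Mu

open Pool.Agent.TH957.Sch Pool.Agent.TH957.Zag
open Topology

/-- the continuous homomorphisms `U → ℤ/p` (extended by `0`) which vanish on `T ∩ U` for all `T ∈ 𝒯` -/
def HomSet {G : Type} [Group G] [TopologicalSpace G] (p : ℕ) (𝒯 : Set (Subgroup G)) (U : Subgroup G) :
    Set (G → ZMod p) :=
  {f | (∀ g, g ∉ U → f g = 0) ∧ (∀ g ∈ U, ∀ h ∈ U, f (g * h) = f g + f h) ∧ ContinuousOn f (U : Set G) ∧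
    ∀ T ∈ 𝒯, ∀ g ∈ T ⊓ U, f g = 0}

/-- the number of subgroups generated by a nontrivial element -/
noncomputable def numCyc (A : Type) [Group A] [Fintype A] : ℕ := (cyc (⊤ : Subgroup A)).card

section Main

variable {G A : Type} [Group G] [TopologicalSpace G] [IsTopologicalGroup G] [Group A] [Fintype A]
variable (p : ℕ) [Fact p.Prime] (𝒯 : Set (Subgroup G)) (D : Data G A)

omit [TopologicalSpace G] [IsTopologicalGroup G] [Fintype A] in
lemma crossed_of_hom {f : G → ZMod p} (hf : ∀ g ∈ D.U, ∀ h ∈ D.U, f (g * h) = f g + f h) :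
    IsCrossed (1 : G →* ZMod p) D.U f := by
  intro g hg h hh
  rw [hf g hg h hh, MonoidHom.one_apply, one_mul]

omit [TopologicalSpace G] [IsTopologicalGroup G] in
lemma hom_pow {U : Subgroup G} {F : G → ZMod p} (hF : ∀ g ∈ U, ∀ h ∈ U, F (g * h) = F g + F h) {g : G} (hg : g ∈ U)
    (n : ℕ) : F (g ^ n) = n * F g := by
  have h1 : F 1 = 0 := by
    have := hF 1 U.one_mem 1 U.one_mem
    rw [mul_one] at this
    exact (left_eq_add.1 this)
  induction n with
  | zero => rw [pow_zero, h1, Nat.cast_zero, zero_mul]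
  | succ n ih =>
    rw [pow_succ, hF _ (U.pow_mem hg n) _ hg, ih]
    push_cast
    ring

/-- the corestriction, extended by `0` -/
noncomputable def corX (C : Subgroup A) (f : G → ZMod p) : G → ZMod p := fun g =>
  open Classical in if g ∈ D.up C then cor (1 : G →* ZMod p) D C f g else 0

lemma corX_mem (h𝒯 : ∀ T ∈ 𝒯, ∀ t : G, T.map (MulAut.conj t).toMonoidHom ∈ 𝒯)
    (O : Subgroup G) (hO : IsOpen (O : Set G)) (hOU : ∀ g ∈ D.N, g ∈ O → g ∈ D.U) (hpA : ((Fintype.card A : ℕ) : ZMod p) ≠ 0)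
    (C : Subgroup A) {f : G → ZMod p} (hf : f ∈ HomSet p 𝒯 D.U) : corX p D C f ∈ HomSet p 𝒯 (D.up C) := by
  classical
  obtain ⟨-, hf2, hf3, hf4⟩ := hf
  have hcr := cor_crossed (1 : G →* ZMod p) D C (crossed_of_hom p D hf2)
  have hhom : ∀ g ∈ D.up C, ∀ h ∈ D.up C, cor (1 : G →* ZMod p) D C f (g * h) =
      cor (1 : G →* ZMod p) D C f g + cor (1 : G →* ZMod p) D C f h := by
    intro g hg h hh
    rw [hcr g hg h hh, MonoidHom.one_apply, one_mul]
  refine ⟨?_, ?_, ?_, ?_⟩
  · intro g hg
    exact if_neg hg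
  · intro g hg h hh
    unfold corX
    rw [if_pos hg, if_pos hh, if_pos ((D.up C).mul_mem hg hh)]
    exact hhom g hg h hh
  · -- continuity
    have hcont0 : ContinuousWithinAt (cor (1 : G →* ZMod p) D C f) (D.U : Set G) 1 := by
      have h1 : ContinuousWithinAt (fun g => ∑ c ∈ Finset.univ.filter (fun c : A => c ∈ C),
          act (1 : G →* ZMod p) (D.s c) f g) (D.U : Set G) 1 := by
        apply tendsto_finsetSum
        intro c _
        have h2 : ContinuousOn (act (1 : G →* ZMod p) (D.s c) f) (D.U : Set G) := by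
          unfold act
          apply ContinuousOn.mul continuousOn_const
          apply hf3.comp
          · exact ((continuous_const.mul continuous_id).mul continuous_const).continuousOn
          · intro g hg
            exact D.conj_mem (D.s_mem c) hg
        exact h2 1 D.U.one_mem
      apply h1.congr
      · intro g hg
        exact cor_eq (1 : G →* ZMod p) D C f hg
      · exact cor_eq (1 : G →* ZMod p) D C f D.U.one_mem
    have hmain : ContinuousOn (cor (1 : G →* ZMod p) D C f) (D.up C : Set G) := by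
      intro g₀ hg₀
      have h2 : ContinuousWithinAt (fun g => cor (1 : G →* ZMod p) D C f g₀ + cor (1 : G →* ZMod p) D C f (g₀⁻¹ * g))
          ((D.up C : Set G) ∩ {g | g₀⁻¹ * g ∈ O}) g₀ := by
        apply ContinuousWithinAt.add continuousWithinAt_const
        apply ContinuousWithinAt.comp (g := cor (1 : G →* ZMod p) D C f) (t := (D.U : Set G))
        · rw [inv_mul_cancel]
          exact hcont0
        · exact (continuous_const.mul continuous_id).continuousWithinAt
        · rintro g ⟨hg, hgO⟩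
          exact hOU _ (D.N.mul_mem (D.N.inv_mem (D.up_le C hg₀)) (D.up_le C hg)) hgO
      have h3 : {g | g₀⁻¹ * g ∈ O} ∈ 𝓝 g₀ := by
        have h5 : ContinuousAt (fun g : G => g₀⁻¹ * g) g₀ := (continuous_const.mul continuous_id).continuousAt
        have h6 : (O : Set G) ∈ 𝓝 (g₀⁻¹ * g₀) := by
          rw [inv_mul_cancel]
          exact hO.mem_nhds O.one_mem
        exact h5 h6
      have h4 : ContinuousWithinAt (cor (1 : G →* ZMod p) D C f) ((D.up C : Set G) ∩ {g | g₀⁻¹ * g ∈ O}) g₀ := by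
        apply h2.congr
        · rintro g ⟨hg, hgO⟩
          have h7 : g₀⁻¹ * g ∈ D.up C := (D.up C).mul_mem ((D.up C).inv_mem hg₀) hg
          rw [← hhom g₀ hg₀ _ h7]
          congr 1
          group
        · rw [inv_mul_cancel, ← hhom g₀ hg₀ 1 (D.up C).one_mem, mul_one]
      exact (continuousWithinAt_inter h3).1 h4
    apply hmain.congr
    intro g hg
    exact if_pos hg
  · intro T hT g hg
    have hgC : g ∈ D.up C := hg.2
    unfold corX
    rw [if_pos hgC]
    have h1 := hom_pow p hhom hgC (Fintype.card A)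
    have hgU : g ^ Fintype.card A ∈ D.U := by
      rw [D.mem_U]
      refine ⟨D.N.pow_mem (D.up_le C hgC) _, ?_⟩
      have : (⟨g ^ Fintype.card A, D.N.pow_mem (D.up_le C hgC) _⟩ : D.N) = (⟨g, D.up_le C hgC⟩ : D.N) ^ Fintype.card A :=
        rfl
      rw [this, map_pow, pow_card_eq_one]
    rw [cor_eq (1 : G →* ZMod p) D C f hgU] at h1
    have h2 : ∑ c ∈ Finset.univ.filter (fun c : A => c ∈ C), act (1 : G →* ZMod p) (D.s c) f (g ^ Fintype.card A) = 0 := by
      apply Finset.sum_eq_zero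
      intro c _
      unfold act
      rw [MonoidHom.one_apply, one_mul]
      apply hf4 _ (h𝒯 T hT (D.s c)⁻¹)
      refine ⟨⟨g ^ Fintype.card A, T.pow_mem hg.1 _, ?_⟩, D.conj_mem (D.s_mem c) hgU⟩
      simp
    rw [h2] at h1
    exact (mul_eq_zero.1 h1.symm).resolve_left hpA

/-- **finiteness along a norm relation prime to `p`** -/
theorem finite_of_relation (h𝒯 : ∀ T ∈ 𝒯, ∀ t : G, T.map (MulAut.conj t).toMonoidHom ∈ 𝒯)
    (O : Subgroup G) (hO : IsOpen (O : Set G)) (hOU : ∀ g ∈ D.N, g ∈ O → g ∈ D.U)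
    (hpA : ((Fintype.card A : ℕ) : ZMod p) ≠ 0) (hA : ∀ a : A, a ≠ 1 → (orderOf a).Prime) (hA1 : Nontrivial A)
    (hm : (((numCyc A : ℕ) : ℤ) - 1 : ZMod p) ≠ 0)
    (hfin : ∀ C : Subgroup A, C ≠ ⊥ → (HomSet p 𝒯 (D.up C)).Finite) : (HomSet p 𝒯 D.U).Finite := by
  classical
  let Φ : (G → ZMod p) → (Subgroup A → (G → ZMod p)) := fun f C => if C = ⊥ then 0 else corX p D C f
  let t : Subgroup A → Set (G → ZMod p) := fun C => if C = ⊥ then {0} else HomSet p 𝒯 (D.up C)
  have ht : (Set.pi Set.univ t).Finite := by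
    apply Set.Finite.pi
    intro C
    by_cases hC : C = ⊥
    · simp only [t, if_pos hC]
      exact Set.finite_singleton _
    · simp only [t, if_neg hC]
      exact hfin C hC
  apply Set.Finite.of_injOn (f := Φ) (t := Set.pi Set.univ t) _ _ ht
  · intro f hf C _
    by_cases hC : C = ⊥
    · simp only [Φ, t, if_pos hC]
      exact rfl
    · simp only [Φ, t, if_neg hC]
      exact corX_mem p 𝒯 D h𝒯 O hO hOU hpA C hf
  · intro f hf f' hf' hff
    funext g
    by_cases hg : g ∈ D.U
    · set h : A → ZMod p := fun a => f ((D.s a)⁻¹ * g * D.s a) - f' ((D.s a)⁻¹ * g * D.s a) with hh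
      have h1 : ∀ C : Subgroup A, C ≠ ⊥ → ∑ c ∈ Finset.univ.filter (fun c : A => c ∈ C), h c = 0 := by
        intro C hC
        have h2 := congrFun (congrFun hff C) g
        simp only [Φ, if_neg hC, corX, if_pos (D.U_le C hg)] at h2
        rw [cor_eq _ D C f hg, cor_eq _ D C f' hg] at h2
        simp only [act, MonoidHom.one_apply, one_mul] at h2
        rw [hh, Finset.sum_sub_distrib, h2, sub_self]
      have h3 := sum_cyc h (⊤ : Subgroup A) (fun a _ ha => hA a ha)
      have h4 : ∑ C ∈ cyc (⊤ : Subgroup A), ∑ c ∈ Finset.univ.filter (fun c : A => c ∈ C), h c = 0 := by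
        apply Finset.sum_eq_zero
        intro C hC
        apply h1
        obtain ⟨a, ⟨_, ha1⟩, rfl⟩ := mem_cyc.1 hC
        rw [Ne, Subgroup.zpowers_eq_bot]
        exact ha1
      have h5 := h1 ⊤ (by
        intro htop
        obtain ⟨a, b, hab⟩ := hA1
        apply hab
        have ha : a ∈ (⊤ : Subgroup A) := Subgroup.mem_top a
        have hb : b ∈ (⊤ : Subgroup A) := Subgroup.mem_top b
        rw [htop, Subgroup.mem_bot] at ha hb
        rw [ha, hb])
      rw [h4, h5, zero_sub, zsmul_eq_mul] at h3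
      have h6 : (((numCyc A : ℕ) : ℤ) - 1 : ZMod p) * h 1 = 0 := by
        rw [numCyc]
        linear_combination -h3
      have h7 : h 1 = 0 := (mul_eq_zero.1 h6).resolve_left hm
      have hs1 : D.s 1 ∈ D.U := by
        rw [D.mem_U']
        exact ⟨D.s_mem 1, D.c_s 1⟩
      have h8 : ∀ F : G → ZMod p, F ∈ HomSet p 𝒯 D.U → F ((D.s 1)⁻¹ * g * D.s 1) = F g := by
        rintro F ⟨-, hF, -, -⟩
        have h9 := hF (D.s 1) hs1 ((D.s 1)⁻¹ * g * D.s 1) (D.conj_mem (D.s_mem 1) hg)
        have e : D.s 1 * ((D.s 1)⁻¹ * g * D.s 1) = g * D.s 1 := by group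
        rw [e, hF g hg _ hs1] at h9
        linear_combination -h9
      rw [hh] at h7
      simp only at h7
      rw [h8 f hf, h8 f' hf', sub_eq_zero] at h7
      exact h7
    · rw [hf.1 g hg, hf'.1 g hg]

end Main

end Pool.Agent.TH957.Mu
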