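import Pool.Agent.TH957.Sch.Red
import Pool.Agent.TH957.Mu.Coh

/-!
# The `μ`-invariant of the cyclotomic `ℤ_p`-extension of totally real fields and norm relations prime to `p`
-/

namespace Pool.Agent.TH957.Mu

open Pool.Agent.TH957.Sch Pool.Agent.TH957.Zag

/-- for odd `p` the group `Gal(Q̄/ℚ_cyc)`: the elements on which the cyclotomic character has order dividing `p - 1` -/
noncomputable def Gam (p : ℕ) [Fact p.Prime] : Subgroup GQ :=
  ((powMonoidHom (p - 1) : ℤ_[p]ˣ →* ℤ_[p]ˣ).comp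
    ((cyclotomicCharacter Qb p).comp (MulSemiringAction.toRingAut GQ Qb))).ker

/-- the inertia groups away from `p` -/
def unr (p : ℕ) : Set (Subgroup GQ) :=
  {T | ∃ A : ValuationSubring Qb, A ≠ ⊤ ∧ (p : Qb)⁻¹ ∈ A ∧ T = inertia A}

lemma unr_conj (p : ℕ) : ∀ T ∈ unr p, ∀ t : GQ, T.map (MulAut.conj t).toMonoidHom ∈ unr p := by
  rintro T ⟨A, hA, h, rfl⟩ t
  refine ⟨tr t A, ?_, ?_, inertia_tr t A⟩
  · intro h1
    apply hA
    rw [eq_top_iff]
    intro x _
    have h2 : t x ∈ tr t A := by rw [h1]; trivial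
    rwa [mem_tr, show t⁻¹ (t x) = x from t.symm_apply_apply x] at h2
  · rw [mem_tr, map_inv₀, map_natCast]
    exact h

/-- **vanishing of the `μ`-invariant** (`p` odd): there are only finitely many continuous homomorphisms
`Gal(Q̄/L_cyc) → ℤ/p` which are unramified outside `p` -/
def MuZero (p : ℕ) [Fact p.Prime] (L : IntermediateField ℚ Qb) : Prop :=
  (HomSet p (unr p) (L.fixingSubgroup ⊓ Gam p)).Finite

/-- `g` extends the automorphism `c` of `L` -/
def Extends (L : IntermediateField ℚ Qb) (g : GQ) (c : AutF L) : Prop := ∀ x : L, g x = (c x : Qb)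

lemma Extends.mem {L : IntermediateField ℚ Qb} {g : GQ} {c : AutF L} (h1 : Extends L g c) : g ∈ stab L := by
  intro x
  constructor
  · intro hx
    have h3 := h1 (c.symm ⟨_, hx⟩)
    rw [AlgEquiv.apply_symm_apply] at h3
    have h4 : x = (c.symm ⟨_, hx⟩ : L) := (g.injective h3).symm
    rw [h4]
    exact (c.symm ⟨_, hx⟩).2
  · intro hx
    rw [h1 ⟨x, hx⟩]
    exact (c ⟨x, hx⟩).2

lemma Extends.restr_eq {L : IntermediateField ℚ Qb} {g : GQ} {c : AutF L} (h1 : Extends L g c) :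
    restr L ⟨g, h1.mem⟩ = c := by
  apply AlgEquiv.ext
  intro x
  exact Subtype.ext (h1 x)

/-- every automorphism in `H` is the restriction of an element of `Gal(Q̄/ℚ_cyc)` -/
def Lifts (p : ℕ) [Fact p.Prime] (L : IntermediateField ℚ Qb) (H : Subgroup (AutF L)) : Prop :=
  ∀ c ∈ H, ∃ g ∈ Gam p, Extends L g c

/-- `L` is totally real -/
def TotReal (L : IntermediateField ℚ Qb) : Prop := ∀ (φ : Qb →+* ℂ), ∀ x ∈ L, (φ x).im = 0

/-- the data of `Gal(Q̄/L_cyc)` and `H` -/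
noncomputable def datH (p : ℕ) [Fact p.Prime] (L : IntermediateField ℚ Qb) (H : Subgroup (AutF L))
    (hl : Lifts p L H) : Data GQ H where
  N := (dat L).up H ⊓ Gam p
  cls :=
    { toFun := fun g => ⟨restr L ⟨g.1, ((dat L).mem_up.1 g.2.1).1⟩, ((dat L).mem_up.1 g.2.1).2⟩
      map_one' := Subtype.ext (map_one (restr L))
      map_mul' := fun a b => Subtype.ext (map_mul (restr L) ⟨a.1, _⟩ ⟨b.1, _⟩) }
  surj := by
    rintro ⟨c, hc⟩
    obtain ⟨g, hg, hgc⟩ := hl c hc
    refine ⟨⟨g, (dat L).mem_up.2 ⟨hgc.mem, ?_⟩, hg⟩, Subtype.ext hgc.restr_eq⟩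
    show restr L ⟨g, hgc.mem⟩ ∈ H
    rw [hgc.restr_eq]
    exact hc

lemma datH_up (p : ℕ) [Fact p.Prime] (L : IntermediateField ℚ Qb) [FiniteDimensional ℚ L] (H : Subgroup (AutF L))
    (hl : Lifts p L H) (C : Subgroup H) :
    (datH p L H hl).up C = (fixF L (C.map H.subtype)).fixingSubgroup ⊓ Gam p := by
  rw [← dat_up]
  ext g
  rw [Data.mem_up, Subgroup.mem_inf, Data.mem_up]
  constructor
  · rintro ⟨h, h1⟩
    exact ⟨⟨((dat L).mem_up.1 h.1).1, ⟨_, h1, rfl⟩⟩, h.2⟩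
  · rintro ⟨⟨h, ⟨c, hc, hc'⟩⟩, h2⟩
    have h3 : g ∈ (dat L).up H := (dat L).mem_up.2 ⟨h, hc' ▸ c.2⟩
    refine ⟨⟨h3, h2⟩, ?_⟩
    have : (datH p L H hl).cls ⟨g, ⟨h3, h2⟩⟩ = c := Subtype.ext hc'.symm
    rw [this]
    exact hc

lemma datH_U (p : ℕ) [Fact p.Prime] (L : IntermediateField ℚ Qb) (H : Subgroup (AutF L))
    (hl : Lifts p L H) : (datH p L H hl).U = L.fixingSubgroup ⊓ Gam p := by
  rw [← dat_U]
  ext g
  rw [Data.mem_U, Subgroup.mem_inf, Data.mem_U]
  constructor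
  · rintro ⟨h, h1⟩
    exact ⟨⟨((dat L).mem_up.1 h.1).1, congrArg Subtype.val h1⟩, h.2⟩
  · rintro ⟨⟨h, h1⟩, h2⟩
    have h3 : g ∈ (dat L).up H := (dat L).mem_up.2 ⟨h, h1 ▸ H.one_mem⟩
    exact ⟨⟨h3, h2⟩, Subtype.ext h1⟩

lemma prime_of_sq {A : Type} [Group A] [Fintype A] {q : ℕ} (hq : q.Prime) (hc : Fintype.card A = q ^ 2)
    (hn : ¬ IsCyclic A) (a : A) (ha : a ≠ 1) : orderOf a = q := by
  have h1 : orderOf a ∣ q ^ 2 := by
    rw [← hc]
    exact orderOf_dvd_card
  obtain ⟨k, hk, hk'⟩ := (Nat.dvd_prime_pow hq).1 h1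
  interval_cases k
  · rw [pow_zero] at hk'
    exact absurd (orderOf_eq_one_iff.1 hk') ha
  · rw [hk', pow_one]
  · exfalso
    apply hn
    apply isCyclic_of_orderOf_eq_card a
    rw [hk', Nat.card_eq_fintype_card, hc]

lemma numCyc_sq {A : Type} [Group A] [Fintype A] {q : ℕ} (hq : q.Prime) (hc : Fintype.card A = q ^ 2)
    (hn : ¬ IsCyclic A) : (numCyc A : ℤ) - 1 = q := by
  classical
  have h1 := sum_cyc (fun _ : A => (1 : ℤ)) (⊤ : Subgroup A)
    (fun a _ ha => by rw [prime_of_sq hq hc hn a ha]; exact hq)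
  have h2 : ∀ C ∈ cyc (⊤ : Subgroup A), ∑ h ∈ Finset.univ.filter (fun h : A => h ∈ C), (1 : ℤ) = q := by
    intro C hC
    obtain ⟨a, ⟨_, ha⟩, rfl⟩ := mem_cyc.1 hC
    rw [Finset.sum_const, nsmul_eq_mul, mul_one]
    have h3 : (Finset.univ.filter (fun h : A => h ∈ Subgroup.zpowers a)).card = Nat.card (Subgroup.zpowers a) := by
      rw [Nat.card_eq_fintype_card]
      exact (Fintype.card_subtype _).symm
    rw [h3, Nat.card_zpowers, prime_of_sq hq hc hn a ha]
  rw [Finset.sum_congr rfl h2, Finset.sum_const] at h1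
  have h4 : ∑ h ∈ Finset.univ.filter (fun h : A => h ∈ (⊤ : Subgroup A)), (1 : ℤ) = (q : ℤ) ^ 2 := by
    simp only [Subgroup.mem_top, Finset.filter_true, Finset.sum_const, Finset.card_univ, hc, nsmul_eq_mul, mul_one]
    push_cast
    ring
  rw [h4, nsmul_eq_mul, smul_eq_mul, mul_one] at h1
  unfold numCyc
  have h5 : (((cyc (⊤ : Subgroup A)).card : ℤ) - 1 - q) * ((q : ℤ) - 1) = 0 := by linear_combination h1
  have h6 : (q : ℤ) - 1 ≠ 0 := by
    have := hq.one_lt
    omega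
  linarith [(mul_eq_zero.1 h5).resolve_right h6]

/-- the number of subgroups of prime order of a non-cyclic group of order `q r`, `r < q` -/
lemma numCyc_pq {A : Type} [Group A] [Fintype A] {q r : ℕ} (hq : q.Prime) (hr : r.Prime) (hlt : r < q)
    (hc : Fintype.card A = q * r) (hp : ∀ a : A, a ≠ 1 → (orderOf a).Prime) : (numCyc A : ℤ) - 1 = q := by
  classical
  have horder : ∀ a : A, a ≠ 1 → orderOf a = q ∨ orderOf a = r := by
    intro a ha
    have h1 : orderOf a ∣ q * r := by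
      rw [← hc]
      exact orderOf_dvd_card
    rcases ((hp a ha).dvd_mul).1 h1 with h | h
    · exact Or.inl ((Nat.prime_dvd_prime_iff_eq (hp a ha) hq).1 h)
    · exact Or.inr ((Nat.prime_dvd_prime_iff_eq (hp a ha) hr).1 h)
  have h1 := sum_cyc (fun _ : A => (1 : ℤ)) (⊤ : Subgroup A) (fun a _ ha => hp a ha)
  have h2 : ∀ C ∈ cyc (⊤ : Subgroup A), ∑ h ∈ Finset.univ.filter (fun h : A => h ∈ C), (1 : ℤ) = Nat.card C := by
    intro C _
    rw [Finset.sum_const, nsmul_eq_mul, mul_one]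
    congr 1
    rw [Nat.card_eq_fintype_card]
    exact (Fintype.card_subtype _).symm
  have h4 : ∑ h ∈ Finset.univ.filter (fun h : A => h ∈ (⊤ : Subgroup A)), (1 : ℤ) = (q : ℤ) * r := by
    simp only [Subgroup.mem_top, Finset.filter_true, Finset.sum_const, Finset.card_univ, hc, nsmul_eq_mul, mul_one]
    push_cast
    ring
  rw [Finset.sum_congr rfl h2, h4, smul_eq_mul, mul_one] at h1
  set Sq := (cyc (⊤ : Subgroup A)).filter (fun C : Subgroup A => Nat.card C = q) with hSq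
  set Sr := (cyc (⊤ : Subgroup A)).filter (fun C : Subgroup A => ¬ Nat.card C = q) with hSr
  have h5 : ∑ C ∈ cyc (⊤ : Subgroup A), (Nat.card C : ℤ) = Sq.card * q + Sr.card * r := by
    rw [← Finset.sum_filter_add_sum_filter_not _ (fun C : Subgroup A => Nat.card C = q)]
    congr 1
    · rw [Finset.sum_congr rfl (g := fun _ => (q : ℤ)), Finset.sum_const, nsmul_eq_mul]
      intro C hC
      rw [(Finset.mem_filter.1 hC).2]
    · rw [Finset.sum_congr rfl (g := fun _ => (r : ℤ)), Finset.sum_const, nsmul_eq_mul]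
      intro C hC
      obtain ⟨a, ⟨_, ha⟩, rfl⟩ := mem_cyc.1 (Finset.mem_filter.1 hC).1
      have h6 := (Finset.mem_filter.1 hC).2
      rw [Nat.card_zpowers] at h6 ⊢
      rw [(horder a ha).resolve_left h6]
  have h7 : (cyc (⊤ : Subgroup A)).card = Sq.card + Sr.card :=
    (Finset.card_filter_add_card_filter_not (s := cyc (⊤ : Subgroup A)) (fun C : Subgroup A => Nat.card C = q)).symm
  have h8 : Sq.card = 1 := by
    apply le_antisymm
    · rw [Finset.card_le_one]
      intro C₁ h₁ C₂ h₂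
      by_contra hne
      obtain ⟨hm₁, hc₁⟩ := Finset.mem_filter.1 h₁
      obtain ⟨hm₂, hc₂⟩ := Finset.mem_filter.1 h₂
      obtain ⟨a₁, ⟨_, ha₁⟩, hz₁⟩ := mem_cyc.1 hm₁
      obtain ⟨a₂, ⟨_, ha₂⟩, hz₂⟩ := mem_cyc.1 hm₂
      have hd : Disjoint C₁ C₂ := by
        rw [Subgroup.disjoint_def]
        intro x hx₁ hx₂
        by_contra hx
        apply hne
        rw [← hz₁] at hx₁
        rw [← hz₂] at hx₂
        rw [← hz₁, ← hz₂, ← zpowers_eq_of_prime (hp a₁ ha₁) hx₁ hx, ← zpowers_eq_of_prime (hp a₂ ha₂) hx₂ hx]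
      have h9 := Nat.card_le_card_of_injective _ (Subgroup.mul_injective_of_disjoint hd)
      rw [Nat.card_prod, hc₁, hc₂, Nat.card_eq_fintype_card, hc] at h9
      have h10 := Nat.le_of_mul_le_mul_left h9 hq.pos
      omega
    · have := Fact.mk hq
      obtain ⟨a, ha⟩ := exists_prime_orderOf_dvd_card q (hc ▸ Dvd.intro r rfl : q ∣ Fintype.card A)
      apply Finset.card_pos.2
      refine ⟨Subgroup.zpowers a, Finset.mem_filter.2 ⟨mem_cyc.2 ⟨a, ⟨Subgroup.mem_top a, ?_⟩, rfl⟩, ?_⟩⟩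
      · intro h
        rw [h, orderOf_one] at ha
        exact hq.one_lt.ne ha
      · rw [Nat.card_zpowers, ha]
  have h11 : ((Sr.card : ℤ) - q) * ((r : ℤ) - 1) = 0 := by
    rw [h5, h7, h8] at h1
    push_cast at h1
    linear_combination h1
  have h12 : (r : ℤ) - 1 ≠ 0 := by
    have := hr.one_lt
    omega
  have h13 := (mul_eq_zero.1 h11).resolve_right h12
  unfold numCyc
  rw [h7, h8]
  push_cast
  linarith

/-- the general reduction for a group of automorphisms of order prime to `p` -/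
theorem mu_reduce_gen (p : ℕ) [Fact p.Prime] (L : IntermediateField ℚ Qb) [FiniteDimensional ℚ L]
    (H : Subgroup (AutF L)) [Fintype H] (hl : Lifts p L H) (hpH : ((Fintype.card H : ℕ) : ZMod p) ≠ 0)
    (hA : ∀ a : H, a ≠ 1 → (orderOf a).Prime) (hH : ¬ IsCyclic H) (hm : (((numCyc H : ℕ) : ℤ) - 1 : ZMod p) ≠ 0)
    (hS : ∀ C : Subgroup (AutF L), C ≤ H → C ≠ ⊥ → MuZero p (fixF L C)) : MuZero p L := by
  classical
  unfold MuZero
  rw [← datH_U p L H hl]
  apply finite_of_relation p (unr p) (datH p L H hl) (unr_conj p) L.fixingSubgroup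
    (IntermediateField.fixingSubgroup_isOpen L)
  · intro g hg hgL
    rw [datH_U]
    exact ⟨hgL, hg.2⟩
  · exact hpH
  · exact hA
  · by_contra hnt
    rw [not_nontrivial_iff_subsingleton] at hnt
    exact hH inferInstance
  · exact hm
  · intro C hC
    rw [datH_up]
    apply hS
    · rintro _ ⟨c, _, rfl⟩
      exact c.2
    · intro h
      apply hC
      rwa [Subgroup.map_eq_bot_iff_of_injective _ (Subgroup.subtype_injective H)] at h

/-- **norm relations for the `μ`-invariant**: non-cyclic groups of order `q r`, with primes `q, r ≠ p` -/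
theorem mu_reduce (p : ℕ) [Fact p.Prime] (L : IntermediateField ℚ Qb) [FiniteDimensional ℚ L]
    (H : Subgroup (AutF L)) (q r : ℕ) (hq : q.Prime) (hr : r.Prime) (hqp : q ≠ p) (hrp : r ≠ p)
    (hc : Nat.card H = q * r) (hl : Lifts p L H)
    (hH : ¬ IsCyclic H) (hS : ∀ C : Subgroup (AutF L), C ≤ H → C ≠ ⊥ → MuZero p (fixF L C)) : MuZero p L := by
  classical
  have := Fintype.ofFinite H
  have hc' : Fintype.card H = q * r := by rw [← Nat.card_eq_fintype_card, hc]
  have hp : p.Prime := Fact.out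
  have hz : ∀ q : ℕ, q.Prime → q ≠ p → ((q : ℕ) : ZMod p) ≠ 0 := by
    intro q hq hqp
    rw [Ne, ZMod.natCast_eq_zero_iff]
    intro h
    exact hqp ((Nat.prime_dvd_prime_iff_eq hp hq).1 h).symm
  have hA : ∀ a : H, a ≠ 1 → (orderOf a).Prime := by
    intro a ha
    have h1 := prime_of_pq hq hr hc hH a a.2 (fun h => ha (Subtype.ext h))
    rwa [Subgroup.orderOf_coe] at h1
  have hcast : ∀ k : ℕ, (numCyc H : ℤ) - 1 = k → ((k : ℕ) : ZMod p) ≠ 0 → (((numCyc H : ℕ) : ℤ) - 1 : ZMod p) ≠ 0 := by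
    intro k hk hk0
    have h2 : (((numCyc H : ℕ) : ℤ) : ZMod p) - 1 = (k : ZMod p) := by
      have h3 := congrArg (fun z : ℤ => (z : ZMod p)) hk
      push_cast at h3 ⊢
      exact h3
    rw [h2]
    exact hk0
  apply mu_reduce_gen p L H hl _ hA hH _ hS
  · rw [hc']
    push_cast
    exact mul_ne_zero (hz q hq hqp) (hz r hr hrp)
  · rcases lt_trichotomy q r with h | h | h
    · exact hcast r (numCyc_pq hr hq h (by rw [hc', mul_comm]) hA) (hz r hr hrp)
    · subst h
      exact hcast q (numCyc_sq hq (by rw [hc', sq]) hH) (hz q hq hqp)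
    · exact hcast q (numCyc_pq hq hr h hc' hA) (hz q hq hqp)

lemma totReal_fixF {L : IntermediateField ℚ Qb} (h : TotReal L) (C : Subgroup (AutF L)) : TotReal (fixF L C) :=
  fun φ x hx => h φ x (IntermediateField.lift_le _ hx)

end Pool.Agent.TH957.Mu
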