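import Pool.Agent.TH957.Mu.Fld

/-!
# Automorphisms of order prime to `p` extend to elements of `Gal(Q̄/ℚ_cyc)`
-/

namespace Pool.Agent.TH957.Mu

open Pool.Agent.TH957.Sch Pool.Agent.TH957.Zag

variable (p : ℕ) [Fact p.Prime]

/-- the `p`-adic cyclotomic character -/
noncomputable def cyc₁ : GQ →* ℤ_[p]ˣ := (cyclotomicCharacter Qb p).comp (MulSemiringAction.toRingAut GQ Qb)

lemma cyc₁_cont : Continuous (cyc₁ p) := cyclotomicCharacter.continuous p ℚ Qb

lemma mem_Gam {g : GQ} : g ∈ Gam p ↔ (cyc₁ p g) ^ (p - 1) = 1 := Iff.rfl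

/-- `χ(g)^(p-1) ≡ 1` modulo `p^i` -/
def Cong (i : ℕ) (g : GQ) : Prop :=
  PadicInt.toZModPow i (((cyc₁ p g) ^ (p - 1) : ℤ_[p]ˣ) : ℤ_[p]) = 1

lemma closed_Cong (i : ℕ) : IsClosed {g : GQ | Cong p i g} := by
  have h1 : {g : GQ | Cong p i g} =
      {g : GQ | ‖((((cyc₁ p g) ^ (p - 1) : ℤ_[p]ˣ) : ℤ_[p]) - 1)‖ ≤ (p : ℝ) ^ (-(i : ℤ))} := by
    ext g
    simp only [Set.mem_setOf_eq, Cong]
    rw [PadicInt.norm_le_pow_iff_mem_span_pow, ← PadicInt.ker_toZModPow, RingHom.mem_ker, map_sub, map_one,
      sub_eq_zero]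
  rw [h1]
  apply isClosed_le _ continuous_const
  apply Continuous.norm
  apply Continuous.sub _ continuous_const
  exact Units.continuous_val.comp ((cyc₁_cont p).pow (p - 1))

lemma closed_Extends (L : IntermediateField ℚ Qb) [FiniteDimensional ℚ L] (g₀ : GQ) (c : AutF L) (h₀ : Extends L g₀ c) :
    IsClosed {g : GQ | Extends L g c} := by
  have h1 : {g : GQ | Extends L g c} = (fun g => g₀⁻¹ * g) ⁻¹' (L.fixingSubgroup : Set GQ) := by
    ext g
    simp only [Set.mem_setOf_eq, Set.mem_preimage, SetLike.mem_coe]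
    rw [IntermediateField.mem_fixingSubgroup_iff]
    constructor
    · intro h x hx
      have h2 := h ⟨x, hx⟩
      have h3 := h₀ ⟨x, hx⟩
      show g₀⁻¹ (g x) = x
      rw [show g x = g₀ x from h2.trans h3.symm]
      exact g₀.symm_apply_apply x
    · intro h x
      have h2 := h x x.2
      have h3 : g (x : Qb) = g₀ x := by
        have h4 : g₀ ((g₀⁻¹ * g) x) = g₀ x := congrArg g₀ h2
        rw [← h4]
        exact (g₀.apply_symm_apply (g x)).symm
      rw [h3]
      exact h₀ x
  rw [h1]
  exact (IntermediateField.fixingSubgroup_isClosed L).preimage (continuous_const.mul continuous_id)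

lemma extends_pow {L : IntermediateField ℚ Qb} {g₀ : GQ} {c : AutF L} (h₀ : Extends L g₀ c) (e : ℕ) :
    Extends L (g₀ ^ e) (c ^ e) := by
  induction e with
  | zero =>
    intro x
    rfl
  | succ e ih =>
    intro x
    rw [pow_succ, pow_succ]
    show (g₀ ^ e) (g₀ x) = (((c ^ e) (c x) : L) : Qb)
    rw [h₀ x]
    exact ih (c x)

/-- **automorphisms of order prime to `p` come from `Gal(Q̄/ℚ_cyc)`** -/
theorem exists_lift (L : IntermediateField ℚ Qb) [FiniteDimensional ℚ L] (c : AutF L) (n : ℕ) (hn : c ^ n = 1) (hpn : Nat.Coprime p n) :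
    ∃ g ∈ Gam p, Extends L g c := by
  obtain ⟨⟨g₀, hg₀⟩, hg₀c⟩ := restr_surj L c
  have h₀ : Extends L g₀ c := by
    intro x
    rw [← hg₀c]
    rfl
  let t : ℕ → Set GQ := fun j => {g | Extends L g c ∧ ∀ i, i ≤ j → Cong p i g}
  have hclosed : ∀ j, IsClosed (t j) := by
    intro j
    have : {g : GQ | ∀ i, i ≤ j → Cong p i g} = ⋂ i, ⋂ (_ : i ≤ j), {g : GQ | Cong p i g} := by
      ext g
      simp
    have h9 : IsClosed {g : GQ | ∀ i, i ≤ j → Cong p i g} := by
      rw [this]
      exact isClosed_iInter fun i => isClosed_iInter fun _ => closed_Cong p i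
    exact (closed_Extends L g₀ c h₀).inter h9
  have hne : ∀ j, (t j).Nonempty := by
    intro j
    have hco : Nat.Coprime n (p ^ j) := (Nat.Coprime.pow_left j hpn).symm
    obtain ⟨e, he1, he2⟩ := Nat.chineseRemainder hco 1 0
    refine ⟨g₀ ^ e, ?_, ?_⟩
    · have h1 : c ^ e = c := by
        have h2 : e % n = 1 % n := he1
        have h3 : c ^ e = c ^ (e % n) := pow_eq_pow_mod e hn
        have h4 : c ^ 1 = c ^ (1 % n) := pow_eq_pow_mod 1 hn
        rw [h3, h2, ← h4, pow_one]
      have h2 := extends_pow h₀ e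
      rwa [h1] at h2
    · intro i hi
      have h1 : p ^ j ∣ e := (Nat.modEq_zero_iff_dvd).1 he2
      obtain ⟨m, hm⟩ := (pow_dvd_pow p hi).trans h1
      unfold Cong
      rw [map_pow, ← pow_mul, hm]
      have h2 : (p - 1) * p ^ i * m = (p ^ i).totient * (if i = 0 then (p - 1) * m else p * m) := by
        rcases Nat.eq_zero_or_pos i with h | h
        · subst h
          simp
        · rw [if_neg (by omega), Nat.totient_prime_pow Fact.out h]
          have h3 : p ^ i = p ^ (i - 1) * p := by
            rw [← pow_succ]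
            congr 1
            omega
          rw [h3]
          ring
      have h3 : (cyc₁ p g₀) ^ (p ^ i * m * (p - 1)) =
          (cyc₁ p g₀) ^ ((p ^ i).totient * (if i = 0 then (p - 1) * m else p * m)) := by
        rw [← h2]
        congr 1
        ring
      rw [h3, pow_mul]
      have h4 := ZMod.pow_totient (n := p ^ i) (Units.map (PadicInt.toZModPow (p := p) i).toMonoidHom (cyc₁ p g₀))
      have h5 : PadicInt.toZModPow i (((cyc₁ p g₀) ^ (p ^ i).totient : ℤ_[p]ˣ) : ℤ_[p]) = 1 := by
        have h6 := congrArg Units.val h4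
        rw [← map_pow] at h6
        exact h6
      rw [Units.val_pow_eq_pow_val, map_pow, h5, one_pow]
  obtain ⟨g, hg⟩ := IsCompact.nonempty_iInter_of_sequence_nonempty_isCompact_isClosed t
    (fun j g hg => ⟨hg.1, fun i hi => hg.2 i (by omega)⟩) hne (hclosed 0).isCompact hclosed
  rw [Set.mem_iInter] at hg
  refine ⟨g, ?_, (hg 0).1⟩
  rw [mem_Gam]
  apply Units.ext
  rw [Units.val_one, ← PadicInt.ext_of_toZModPow]
  intro i
  rw [map_one]
  exact (hg i).2 i le_rfl

/-- the lifting condition is satisfied for groups of order `q r`, with primes `q, r ≠ p` -/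
theorem lifts_of_card (L : IntermediateField ℚ Qb) [FiniteDimensional ℚ L] (H : Subgroup (AutF L)) (q r : ℕ)
    (hq : q.Prime) (hr : r.Prime) (hqp : q ≠ p) (hrp : r ≠ p) (hc : Nat.card H = q * r) : Lifts p L H := by
  intro c hcH
  apply exists_lift p L c (q * r)
  · have h1 : (⟨c, hcH⟩ : H) ^ Nat.card H = 1 := pow_card_eq_one'
    rw [hc] at h1
    exact congrArg Subtype.val h1
  · apply Nat.Coprime.mul_right
    · exact (Nat.coprime_primes Fact.out hq).2 hqp.symm
    · exact (Nat.coprime_primes Fact.out hr).2 hrp.symm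

/-- the remaining fields: every subgroup of `Aut L` of order `q r`, with primes `q, r ≠ p`, is cyclic -/
def Rem (L : IntermediateField ℚ Qb) : Prop :=
  ∀ (H : Subgroup (AutF L)) (q r : ℕ), q.Prime → r.Prime → q ≠ p → r ≠ p → Nat.card H = q * r → IsCyclic H

/-- the conjecture for all totally real fields and for the remaining ones -/
theorem all_iff_mu :
    (∀ (L : IntermediateField ℚ Qb) [FiniteDimensional ℚ L], TotReal L → MuZero p L) ↔
      ∀ (L : IntermediateField ℚ Qb) [FiniteDimensional ℚ L], TotReal L → Rem p L → MuZero p L := by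
  refine ⟨fun h L _ hr _ => h L hr, fun h => ?_⟩
  have key : ∀ d : ℕ, ∀ (L : IntermediateField ℚ Qb) [FiniteDimensional ℚ L], TotReal L → Module.finrank ℚ L = d →
      MuZero p L := by
    intro d
    induction d using Nat.strong_induction_on with
    | _ d ih =>
      intro L _ hr hd
      by_cases h1 : Rem p L
      · exact h L hr h1
      · unfold Rem at h1
        push Not at h1
        obtain ⟨H, q, r, hq, hr', hqp, hrp, hc, hH⟩ := h1
        apply mu_reduce p L H q r hq hr' hqp hrp hc (lifts_of_card p L H q r hq hr' hqp hrp hc) hH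
        intro C _ hC
        apply ih _ _ (fixF L C) (totReal_fixF hr C) rfl
        rw [← hd]
        exact finrank_fixF_lt L C (Subgroup.one_lt_card_iff_ne_bot C |>.2 hC)
  intro L _ hr
  exact key _ L hr rfl

end Pool.Agent.TH957.Mu
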